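import Mathlib
import Pool.Agent.H24.HomP3

set_option autoImplicit false

namespace Pool.Agent.Results.MP_3ff21c_al.Decidable

theorem result {H G Y : Type} [Group H] [Group G]
    (N : Subgroup H) [N.FiniteIndex] [IsFreeGroup N]
    {a : ℕ} (x : Fin a → H) (hx : Subgroup.closure (Set.range x) = ⊤) (M : Submonoid H)
    [Primcodable Y] (y : Y → G)
    (hG : ComputablePred fun w : List (Y × Bool) => FreeGroup.lift y (FreeGroup.mk w) = 1) :
    ∃ f : List (List (Fin a × Bool) × List (Y × Bool)) →. Bool, Partrec f ∧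
      ∀ l, Submonoid.closure {h | ∃ p ∈ l, FreeGroup.lift x (FreeGroup.mk p.1) = h} = M →
        ∃ b ∈ f l, (b = true ↔ ∃ Φ : M →* G, ∀ p ∈ l,
          ∀ h : FreeGroup.lift x (FreeGroup.mk p.1) ∈ M,
            Φ ⟨_, h⟩ = FreeGroup.lift y (FreeGroup.mk p.2)) :=
  Pool.Agent.H24.HomP.final N x hx M y hG

end Pool.Agent.Results.MP_3ff21c_al.Decidable
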